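import Pool.Agent.Lib.MP_ad3787_an.Final

/-! A regular compact set in the plane on which every Fekete array fails, for every `c > 1`. -/

namespace Pool.Agent.Results.MP_ad3787_an.EveryArray

open Polynomial Pool.Agent.Lib.MP_ad3787_an

theorem result : ∃ K : Set ℂ, IsCompact K ∧ K.Nonempty ∧
    (∃ V : ℂ → ℝ, Continuous V ∧ ∀ z : ℂ, IsLUB {t : ℝ | ∃ p : ℂ[X], 1 ≤ p.natDegree ∧
      (∀ x ∈ K, ‖p.eval x‖ ≤ 1) ∧ p.eval z ≠ 0 ∧
      t = Real.log ‖p.eval z‖ / (p.natDegree : ℝ)} (V z)) ∧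
    ∀ F : (m : ℕ) → Fin (m + 1) → ℂ,
      (∀ m : ℕ, (∀ i, F m i ∈ K) ∧ ∀ y : Fin (m + 1) → ℂ, (∀ i, y i ∈ K) →
        ‖(Matrix.vandermonde y).det‖ ≤ ‖(Matrix.vandermonde (F m)).det‖) →
      ∀ c : ℝ, 1 < c → ∀ C : ℝ, ∃ (n : ℕ) (p : ℂ[X]), p.natDegree ≤ n ∧
        (∀ i, ‖p.eval (F ⌈c * (n : ℝ)⌉₊ i)‖ ≤ 1) ∧ ∃ z ∈ K, C < ‖p.eval z‖ := by
  obtain ⟨K, hK, hne, ⟨Φ, hΦ, hΦ'⟩, hbad⟩ := exists_bad
  refine ⟨K, hK, hne, ⟨fun z => Real.log (Φ fun _ => z), ?_, fun z => ⟨?_, fun b hb => ?_⟩⟩,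
    fun F hF c hc C => ?_⟩
  · refine (hΦ.comp (continuous_pi fun _ => continuous_id)).log fun z => ?_
    exact (zero_lt_one.trans_le ((hΦ' fun _ => z).1 (Or.inl rfl))).ne'
  · rintro _ ⟨p, hp1, hp2, hp3, rfl⟩
    have h1 := sic_lower K hne (fun _ => z) _ (hΦ' _).1 _ p le_rfl hp2
    have h2 : (0 : ℝ) < p.natDegree := by exact_mod_cast hp1
    rw [div_le_iff₀ h2, mul_comm, ← Real.log_pow]
    exact Real.log_le_log (norm_pos_iff.2 hp3) h1
  · have hb0 : 0 ≤ b := by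
      by_contra hc
      rw [not_le] at hc
      obtain ⟨R, hR⟩ := hK.isBounded.subset_closedBall z
      have hs0 : 0 < Real.exp (b / 2) := Real.exp_pos _
      have hs1 : Real.exp (b / 2) < 1 := Real.exp_lt_one_iff.2 (by linarith)
      set s := Real.exp (b / 2) with hs
      have hR1 : 0 < |R| + 1 := by positivity
      have hδ : 0 < (1 - s) / (|R| + 1) := div_pos (by linarith) hR1
      set δ := (1 - s) / (|R| + 1) with hδ'
      have hdeg : (C (δ : ℂ) * X + C ((s : ℂ) - δ * z)).natDegree = 1 :=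
        natDegree_linear (by exact_mod_cast hδ.ne')
      have hev : ∀ x, (C (δ : ℂ) * X + C ((s : ℂ) - δ * z)).eval x = s + δ * (x - z) := by
        intro x; simp; ring
      have h1 := hb ⟨C (δ : ℂ) * X + C ((s : ℂ) - δ * z), hdeg.ge, fun x hx => ?_, ?_, rfl⟩
      · rw [hdeg, hev, sub_self, mul_zero, add_zero, Complex.norm_real, Real.norm_of_nonneg hs0.le,
          hs, Real.log_exp] at h1
        norm_num at h1
        linarith
      · have h2 : ‖x - z‖ ≤ |R| + 1 := by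
          have := hR hx
          rw [Metric.mem_closedBall, dist_eq_norm] at this
          linarith [le_abs_self R]
        rw [hev]
        refine (norm_add_le _ _).trans ?_
        rw [norm_mul, Complex.norm_real, Complex.norm_real, Real.norm_of_nonneg hs0.le,
          Real.norm_of_nonneg hδ.le]
        have h3 : δ * (|R| + 1) = 1 - s := div_mul_cancel₀ _ hR1.ne'
        nlinarith
      · rw [hev, sub_self, mul_zero, add_zero]
        exact_mod_cast hs0.ne'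
    have h1 : (1 : ℝ) ≤ Real.exp b := Real.one_le_exp hb0
    rw [Real.log_le_iff_le_exp (zero_lt_one.trans_le ((hΦ' fun _ => z).1 (Or.inl rfl)))]
    refine (hΦ' _).2 (sic_upper K _ _ h1 fun n _ q hq hq1 => ?_)
    by_cases h0 : q.natDegree = 0
    · obtain ⟨x, hx⟩ := hne
      have h2 := hq1 x hx
      rw [eq_C_of_natDegree_eq_zero h0] at h2 ⊢
      rw [eval_C] at h2 ⊢
      exact h2.trans (one_le_pow₀ h1)
    · by_cases h2 : q.eval z = 0
      · rw [h2, norm_zero]; positivity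
      · have h3 := hb ⟨q, Nat.one_le_iff_ne_zero.2 h0, hq1, h2, rfl⟩
        have h4 : (0 : ℝ) < q.natDegree := by exact_mod_cast Nat.pos_of_ne_zero h0
        rw [div_le_iff₀ h4, Real.log_le_iff_le_exp (norm_pos_iff.2 h2), mul_comm,
          Real.exp_nat_mul] at h3
        exact h3.trans (pow_le_pow_right₀ h1 hq)
  · obtain ⟨n, p, hp1, hp2, hp3⟩ := hbad c hc C
    exact ⟨n, p, hp1, hp3 _ (hF _).1 (hF _).2, hp2⟩

end Pool.Agent.Results.MP_ad3787_an.EveryArray
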